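import Pool.Agent.Helper13_FK.Stmts
import Pool.Agent.Helper5_Frey.Frey

/-!
# Module HGT: the upper bound for the height
-/

namespace Pool.Agent.FK.H79

open Polynomial Helper5Frey

lemma exists_bez {f : ℤ[X]} (hsep : (f.map (Int.castRingHom ℚ)).Separable) :
    ∃ N : ℤ, N ≠ 0 ∧ ∃ A B : ℤ[X], A * f + B * derivative f = C N := by
  obtain ⟨a, b, hab⟩ := hsep
  obtain ⟨u, hu, hu'⟩ := IsLocalization.integerNormalization_spec (nonZeroDivisors ℤ) a
  obtain ⟨v, hv, hv'⟩ := IsLocalization.integerNormalization_spec (nonZeroDivisors ℤ) b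
  set A := IsLocalization.integerNormalization (nonZeroDivisors ℤ) a with hA
  set B := IsLocalization.integerNormalization (nonZeroDivisors ℤ) b with hB
  rw [algebraMap_int_eq] at hu' hv'
  refine ⟨u * v, mul_ne_zero (nonZeroDivisors.ne_zero hu) (nonZeroDivisors.ne_zero hv),
    C v * A, C u * B, ?_⟩
  apply map_injective (Int.castRingHom ℚ) (RingHom.injective_int _)
  rw [Polynomial.map_add, Polynomial.map_mul, Polynomial.map_mul, Polynomial.map_mul,
    Polynomial.map_mul, hu', hv', ← derivative_map, map_C, map_C, map_C]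
  simp only [zsmul_eq_mul, eq_intCast, map_mul]
  have h1 : ((u : ℤ) : ℚ[X]) = C ((u : ℤ) : ℚ) := by simp
  have h2 : ((v : ℤ) : ℚ[X]) = C ((v : ℤ) : ℚ) := by simp
  rw [h1, h2]
  linear_combination (C ((u : ℤ) : ℚ)) * (C ((v : ℤ) : ℚ)) * hab

lemma nodePrimes_finite {f : ℤ[X]} (hf : f.Monic) (hd : f.natDegree ≠ 0)
    (hsep : (f.map (Int.castRingHom ℚ)).Separable) : (nodePrimes f).Finite := by
  obtain ⟨N, hN, A, B, hAB⟩ := exists_bez hsep
  refine (N.natAbs.divisors.finite_toSet).subset ?_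
  rintro p ⟨hp, hp2, -, hcard⟩
  classical
  rw [Finset.mem_coe, Nat.mem_divisors]
  refine ⟨?_, Int.natAbs_ne_zero.mpr hN⟩
  by_contra hpN
  have := Fact.mk hp
  set φ := Int.castRingHom (AlgebraicClosure (ZMod p)) with hφ
  have hu : IsUnit (φ N) := by
    rw [isUnit_iff_ne_zero, hφ, eq_intCast, Ne, CharP.intCast_eq_zero_iff _ p, Int.natCast_dvd]
    exact hpN
  have hs : (f.map φ).Separable := by
    obtain ⟨u, hu⟩ := hu
    refine ⟨C (↑u⁻¹ : AlgebraicClosure (ZMod p)) * A.map φ,
      C (↑u⁻¹ : AlgebraicClosure (ZMod p)) * B.map φ, ?_⟩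
    have h1 := congrArg (Polynomial.map φ) hAB
    rw [Polynomial.map_add, Polynomial.map_mul, Polynomial.map_mul, map_C, ← hu] at h1
    rw [derivative_map, mul_assoc, mul_assoc, ← mul_add, h1, ← C_mul, Units.inv_mul, C_1]
  have h2 : {x : AlgebraicClosure (ZMod p) | eval₂ φ x f = 0} =
      ((f.map φ).roots.toFinset : Set (AlgebraicClosure (ZMod p))) := by
    ext x
    rw [Set.mem_ofPred_eq, Finset.mem_coe, Multiset.mem_toFinset, mem_roots hs.ne_zero,
      IsRoot.def, eval_map]
  rw [h2, Set.ncard_coe_finset, Multiset.toFinset_card_of_nodup (nodup_roots hs),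
    ← (IsAlgClosed.splits (f.map φ)).natDegree_eq_card_roots, hf.natDegree_map] at hcard
  omega

theorem hgt : HgtStmt := by
  intro n hn
  obtain ⟨C₁, hC₁⟩ := exists_heightBound n ((n - 1) / 2) (by omega) (by omega)
  set g : ℕ := (n - 1) / 2 with hg
  refine ⟨C₁ + (g : ℝ) / 2 * (n * Real.log 2), ?_⟩
  intro I _ z f hI hz hf
  have hmonC : (f.map (Int.castRingHom ℂ)).Monic := by
    rw [hf]
    exact monic_prod_of_monic _ _ fun i _ => monic_X_sub_C _
  have hdegC : (f.map (Int.castRingHom ℂ)).natDegree = n := by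
    rw [hf, natDegree_prod_of_monic _ _ fun i _ => monic_X_sub_C _]
    simp [hI]
  have hmon : f.Monic := by
    rwa [Function.Injective.monic_map_iff (RingHom.injective_int (Int.castRingHom ℂ))]
  have hdeg : f.natDegree = n := by rw [← natDegree_complex, hdegC]
  have hsepC : (f.map (Int.castRingHom ℂ)).Separable := by
    rw [hf, separable_prod_X_sub_C_iff]
    exact hz
  have hsep : (f.map (Int.castRingHom ℚ)).Separable := by
    rw [← separable_map (algebraMap ℚ ℂ), Polynomial.map_map]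
    have h2 : (algebraMap ℚ ℂ).comp (Int.castRingHom ℚ) = Int.castRingHom ℂ :=
      RingHom.ext_int _ _
    rwa [h2]
  set a : Fin (n + 1) → ℤ := fun i => f.coeff i with ha
  have hpoly : poly a = f := by
    unfold poly
    rw [f.as_sum_range_C_mul_X_pow, hdeg, ← Fin.sum_univ_eq_sum_range
      (fun i => C (f.coeff i) * X ^ i)]
  obtain ⟨h1, h2, h3⟩ := hC₁ a (by rw [hpoly]; exact hdeg) (by rw [hpoly]; exact hsep)
  rw [hpoly] at h1 h2 h3
  have hfin := nodePrimes_finite hmon (by omega) hsep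
  refine ⟨fun κ C h => ⟨hdeg, hsep, h1, h2, hfin, h⟩, hfin, ?_⟩
  intro H hH hzH
  have hH0 : 0 < H := by linarith
  have h4 := h3 H (2 ^ n * H ^ n) hH0 (by
    intro i
    have hroots : ∀ w ∈ (map (Int.castRingHom ℂ) f).roots, ‖w‖ ≤ H := by
      intro w hw
      rw [mem_roots hsepC.ne_zero, IsRoot.def, hf, eval_prod, Finset.prod_eq_zero_iff] at hw
      obtain ⟨i, -, hi⟩ := hw
      rw [eval_sub, eval_X, eval_C, sub_eq_zero] at hi
      rw [hi]
      exact hzH i
    have h5 := coeff_le_of_roots_le (i : ℕ) hmon (IsAlgClosed.splits _) hroots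
    rw [coeff_map, eq_intCast, Complex.norm_intCast, hdeg] at h5
    have h6 : ((n.choose i : ℕ) : ℝ) ≤ 2 ^ n := by exact_mod_cast Nat.choose_le_two_pow n i
    have h7 : H ^ (n - (i : ℕ)) * H ^ (i : ℕ) = H ^ n := by
      rw [← pow_add, Nat.sub_add_cancel]
      have := i.2
      omega
    calc |(a i : ℝ)| * H ^ (i : ℕ) ≤ (H ^ (n - (i : ℕ)) * (n.choose i : ℕ)) * H ^ (i : ℕ) := by
          gcongr
      _ = (n.choose i : ℕ) * H ^ n := by
          rw [← h7]
          ring
      _ ≤ 2 ^ n * H ^ n := by gcongr)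
  have hlog : Real.log (2 ^ n * H ^ n) = n * Real.log 2 + n * Real.log H := by
    rw [Real.log_mul (by positivity) (by positivity), Real.log_pow, Real.log_pow]
  rw [hlog] at h4
  refine h4.trans (le_of_eq ?_)
  ring

end Pool.Agent.FK.H79
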