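import Pool.Agent.Helper13_FK.Stmts

/-!
# Module L2: the solutions of `q ∣ Φ t`, `q` prime to the discriminant
-/

namespace Pool.Agent.FK.H79

open Polynomial

lemma hensel_unique {Φ : ℤ[X]} {Δ : ℤ} (hB : Bez Φ Δ) {p : ℕ} (hp : p.Prime)
    (hpΔ : ¬ (p : ℤ) ∣ Δ) {k : ℕ} (hk : k ≠ 0) {t t' : ℤ} (h : (p : ℤ) ^ k ∣ Φ.eval t)
    (h' : (p : ℤ) ^ k ∣ Φ.eval t') (ht : (p : ℤ) ∣ t' - t) : (p : ℤ) ^ k ∣ t' - t := by
  obtain ⟨A, B, hAB⟩ := hB
  have hpZ : Prime (p : ℤ) := Nat.prime_iff_prime_int.mp hp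
  have h1 : (p : ℤ) ∣ Φ.eval t := (dvd_pow_self _ hk).trans h
  have h2 : ¬ (p : ℤ) ∣ (derivative Φ).eval t := by
    intro h3
    apply hpΔ
    have h4 := congrArg (Polynomial.eval t) hAB
    simp only [eval_add, eval_mul, eval_C] at h4
    rw [← h4]
    exact dvd_add (h1.mul_left _) (h3.mul_left _)
  obtain ⟨w, hw⟩ := Φ.binomExpansion t (t' - t)
  rw [add_sub_cancel] at hw
  have h5 : (p : ℤ) ^ k ∣ (t' - t) * ((derivative Φ).eval t + w * (t' - t)) := by
    have h6 : (t' - t) * ((derivative Φ).eval t + w * (t' - t)) = Φ.eval t' - Φ.eval t := by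
      rw [hw]
      ring
    rw [h6]
    exact dvd_sub h' h
  have h7 : IsCoprime ((p : ℤ) ^ k) ((derivative Φ).eval t + w * (t' - t)) := by
    apply IsCoprime.pow_left
    rw [Prime.coprime_iff_not_dvd hpZ]
    intro h8
    apply h2
    have h9 := dvd_sub h8 (ht.mul_left w)
    rwa [add_sub_cancel_right] at h9
  exact h7.dvd_of_dvd_mul_right h5

theorem l2 : L2Stmt := by
  intro Φ Δ hB hd q H hq hcop
  classical
  have hpr : ∀ p : q.primeFactors, (p : ℕ).Prime := fun p => Nat.prime_of_mem_primeFactors p.2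
  have hnd : ∀ p : q.primeFactors, ¬ ((p : ℕ) : ℤ) ∣ Φ.leadingCoeff * Δ := by
    intro p hdv
    have h1 : (p : ℕ) ∣ (Φ.leadingCoeff * Δ).natAbs := Int.natCast_dvd.mp hdv
    have h2 : (p : ℕ) ∣ q := Nat.dvd_of_mem_primeFactors p.2
    exact (hpr p).one_lt.ne' (Nat.eq_one_of_dvd_coprimes hcop h2 h1)
  let T : Finset (∀ p : q.primeFactors, ZMod p) :=
    Fintype.piFinset fun p => haveI := Fact.mk (hpr p)
      (Φ.map (Int.castRingHom (ZMod (p : ℕ)))).roots.toFinset
  have hT : T.card ≤ Φ.natDegree ^ q.primeFactors.card := by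
    rw [Fintype.card_piFinset]
    refine (Finset.prod_le_prod' (g := fun _ => Φ.natDegree) fun p _ => ?_).trans (le_of_eq ?_)
    · have := Fact.mk (hpr p)
      exact (Multiset.toFinset_card_le _).trans
        ((card_roots' _).trans (natDegree_map_le))
    · rw [Finset.prod_const, Finset.card_univ, Fintype.card_coe]
  let F : ℕ → (∀ p : q.primeFactors, ZMod p) × ℕ := fun t => (fun p => (t : ZMod (p : ℕ)), t / q)
  have hmaps : ∀ t ∈ {t : ℕ | t < H ∧ (q : ℤ) ∣ Φ.eval (t : ℤ)},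
      F t ∈ ((T ×ˢ Finset.range (H / q + 1) : Finset _) : Set _) := by
    rintro t ⟨ht, hqt⟩
    rw [Finset.mem_coe, Finset.mem_product]
    constructor
    · rw [Fintype.mem_piFinset]
      intro p
      have := Fact.mk (hpr p)
      rw [Multiset.mem_toFinset, mem_roots']
      constructor
      · intro h0
        apply hnd p
        have h1 := congrArg (fun g => g.coeff Φ.natDegree) h0
        simp only [coeff_map, coeff_zero] at h1
        rw [eq_intCast, ZMod.intCast_zmod_eq_zero_iff_dvd] at h1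
        exact Dvd.dvd.mul_right h1 _
      · have h1 : ((p : ℕ) : ℤ) ∣ Φ.eval (t : ℤ) :=
          (Int.natCast_dvd_natCast.mpr (Nat.dvd_of_mem_primeFactors p.2)).trans hqt
        rw [IsRoot.def, eval_natCast_map, eq_intCast, ZMod.intCast_zmod_eq_zero_iff_dvd]
        exact h1
    · rw [Finset.mem_range]
      exact Nat.lt_succ_of_le (Nat.div_le_div_right ht.le)
  have hinj : Set.InjOn F {t : ℕ | t < H ∧ (q : ℤ) ∣ Φ.eval (t : ℤ)} := by
    rintro t ⟨ht, hqt⟩ t' ⟨ht', hqt'⟩ hF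
    have h1 : ∀ p : q.primeFactors, (t : ZMod (p : ℕ)) = t' := fun p =>
      congrFun (congrArg Prod.fst hF) p
    have h2 : t / q = t' / q := congrArg Prod.snd hF
    have h3 : (q : ℤ) ∣ (t' : ℤ) - t := by
      rw [Int.natCast_dvd, Nat.dvd_iff_prime_pow_dvd_dvd]
      intro p k hp hpk
      rcases Nat.eq_zero_or_pos k with rfl | hk
      · simp
      have hpq : p ∣ q := (dvd_pow_self p hk.ne').trans hpk
      have hpk' : ((p : ℤ) ^ k) ∣ (q : ℤ) := by exact_mod_cast hpk
      have hmem : p ∈ q.primeFactors := Nat.mem_primeFactors.mpr ⟨hp, hpq, by omega⟩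
      have h5 := hensel_unique hB hp (fun h => hnd ⟨p, hmem⟩ (Dvd.dvd.mul_left h _)) hk.ne'
        (hpk'.trans hqt) (hpk'.trans hqt') (by
          have h6 := h1 ⟨p, hmem⟩
          rw [← sub_eq_zero] at h6
          rw [← ZMod.intCast_zmod_eq_zero_iff_dvd]
          push_cast
          rw [← neg_sub, neg_eq_zero]
          exact h6)
      rw [← Int.natCast_dvd]
      exact_mod_cast h5
    have h4 : t % q = t' % q := Nat.modEq_iff_dvd.mpr h3
    rw [← Nat.div_add_mod t q, ← Nat.div_add_mod t' q, h2, h4]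
  have hcard := Set.ncard_le_ncard_of_injOn F hmaps hinj (Finset.finite_toSet _)
  rw [Set.ncard_coe_finset, Finset.card_product, Finset.card_range] at hcard
  exact hcard.trans (Nat.mul_le_mul_right _ hT)

end Pool.Agent.FK.H79
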